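import Pool.Agent.W251.EX.Defs4
import Pool.Agent.W460.EX.Chrw

/-!
# Project EX, part 4, TW: means of `f(d) g(d')` over the pairs without small square divisors
-/

set_option autoImplicit false

namespace Pool.Agent.W924.EX

open Finset Filter
open Pool.Agent.W78.GA (Qd nm dt ip dedge nm_mul)
open Pool.Agent.W78.EC (Gi SP S_CORR S_SCNT)
open Pool.Agent.W251.GX (Cm)
open Pool.Agent.W251.EX
open Pool.Agent.W588.EX
open Pool.Agent.W460.EXW (AG_win Win mem_Win per_scale finyw SW_eq)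

theorem fcm (N : ℕ) (f : ℕ → ℂ) (hN : 1 ≤ N)
    (mf : ∀ m n : ℕ, m ≠ 0 → n ≠ 0 → f (m * n) = f m * f n) (pf : ∀ n : ℕ, f n ^ N = 1) :
    Cm N (fun z : Gi => f (nm z)) where
  pos := hN
  mul := by
    intro z w hz hw
    show f (nm (z * w)) = f (nm z) * f (nm w)
    rw [nm_mul]
    exact mf _ _ (nmne hz) (nmne hw)
  pow := by
    intro z
    exact pf _

theorem nm_mod4 (z : Gi) : nm z % 4 ≠ 3 := by
  intro h
  have h1 := nmC z
  have h2 : ((nm z : ℕ) : ℤ) % 4 = 3 := by omega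
  rw [h1] at h2
  have h3 : z.re ^ 2 % 4 = 0 ∨ z.re ^ 2 % 4 = 1 := by
    rcases Int.emod_two_eq_zero_or_one z.re with h | h
    · obtain ⟨k, hk⟩ : ∃ k, z.re = 2 * k := ⟨z.re / 2, by omega⟩
      left
      rw [hk]
      have : (2 * k) ^ 2 = 4 * (k ^ 2) := by ring
      omega
    · obtain ⟨k, hk⟩ : ∃ k, z.re = 2 * k + 1 := ⟨z.re / 2, by omega⟩
      right
      rw [hk]
      have : (2 * k + 1) ^ 2 = 4 * (k ^ 2 + k) + 1 := by ring
      omega
  have h4 : z.im ^ 2 % 4 = 0 ∨ z.im ^ 2 % 4 = 1 := by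
    rcases Int.emod_two_eq_zero_or_one z.im with h | h
    · obtain ⟨k, hk⟩ : ∃ k, z.im = 2 * k := ⟨z.im / 2, by omega⟩
      left
      rw [hk]
      have : (2 * k) ^ 2 = 4 * (k ^ 2) := by ring
      omega
    · obtain ⟨k, hk⟩ : ∃ k, z.im = 2 * k + 1 := ⟨z.im / 2, by omega⟩
      right
      rw [hk]
      have : (2 * k + 1) ^ 2 = 4 * (k ^ 2 + k) + 1 := by ring
      omega
  omega

theorem fg_Pr (N : ℕ) (τ : ℂ) (f g : ℕ → ℂ) (h : FG N τ f g) :
    Pr N τ (fun z : Gi => f (nm z)) (fun z : Gi => g (nm z)) :=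
  ⟨fcm N f h.pos h.mf h.pf, fcm N g h.pos h.mg h.pg, fun π hπ => h.tw _ hπ (nm_mod4 π)⟩

theorem fg_swap {N : ℕ} {τ : ℂ} {f g : ℕ → ℂ} (h : FG N τ f g) : FG N τ g f :=
  ⟨h.pos, h.mg, h.mf, h.pg, h.pf, fun p hp h4 => by rw [mul_comm]; exact h.tw p hp h4⟩

/-- the relation -/
def RS (q a r : ℕ) (sw : Bool) (P : ℕ) (v w : Gi) : Prop :=
  RR q a r sw v w ∧ Sqp P (nm v, nm w)

theorem rel_dvd {q q' : ℕ} (h : q ∣ q') (R : Gi → Gi → Prop) (hR : Rel q R) : Rel q' R where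
  per := by
    intro v w v' w' h1 h2 h3 h4
    have hz : (q : ℤ) ∣ (q' : ℤ) := Int.natCast_dvd_natCast.2 h
    exact hR.per v w v' w' (hz.trans h1) (hz.trans h2) (hz.trans h3) (hz.trans h4)
  dil := by
    intro π v w hc
    exact hR.dil π v w (Nat.Coprime.coprime_dvd_right h hc)

theorem sqp_rel (P m : ℕ) (hm : (P.factorial) ^ 2 ∣ m) :
    Rel m (fun v w => Sqp P (nm v, nm w)) where
  per := by
    intro v w v' w' h1 h2 h3 h4
    have key : ∀ l : ℕ, l ≤ P → l.Prime → (l ^ 2 ∣ nm v * nm w ↔ l ^ 2 ∣ nm v' * nm w') := by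
      intro l hl hp
      have hlm : l ^ 2 ∣ m := (pow_dvd_pow_of_dvd (Nat.dvd_factorial hp.pos hl) 2).trans hm
      have hz : ((l ^ 2 : ℕ) : ℤ) ∣ (m : ℤ) := Int.natCast_dvd_natCast.2 hlm
      have e1 : v.re ≡ v'.re [ZMOD ((l ^ 2 : ℕ) : ℤ)] :=
        (Int.modEq_iff_dvd.2 (hz.trans h1)).symm
      have e2 : v.im ≡ v'.im [ZMOD ((l ^ 2 : ℕ) : ℤ)] :=
        (Int.modEq_iff_dvd.2 (hz.trans h2)).symm
      have e3 : w.re ≡ w'.re [ZMOD ((l ^ 2 : ℕ) : ℤ)] :=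
        (Int.modEq_iff_dvd.2 (hz.trans h3)).symm
      have e4 : w.im ≡ w'.im [ZMOD ((l ^ 2 : ℕ) : ℤ)] :=
        (Int.modEq_iff_dvd.2 (hz.trans h4)).symm
      have hv : (nm v : ℤ) ≡ (nm v' : ℤ) [ZMOD ((l ^ 2 : ℕ) : ℤ)] := by
        rw [nmC, nmC]; exact (e1.pow 2).add (e2.pow 2)
      have hw : (nm w : ℤ) ≡ (nm w' : ℤ) [ZMOD ((l ^ 2 : ℕ) : ℤ)] := by
        rw [nmC, nmC]; exact (e3.pow 2).add (e4.pow 2)
      have hp := hv.mul hw
      have hp' : nm v * nm w ≡ nm v' * nm w' [MOD l ^ 2] := by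
        rw [← Int.natCast_modEq_iff]
        push_cast at hp ⊢
        exact hp
      exact hp'.dvd_iff (dvd_refl _)
    unfold Sqp
    constructor
    · intro h l hl hp hd
      exact h l hl hp ((key l hl hp).2 hd)
    · intro h l hl hp hd
      exact h l hl hp ((key l hl hp).1 hd)
  dil := by
    intro π v w hc
    have key : ∀ l : ℕ, l ≤ P → l.Prime →
        (l ^ 2 ∣ nm (π * v) * nm (π * w) ↔ l ^ 2 ∣ nm v * nm w) := by
      intro l hl hp
      have hlm : l ^ 2 ∣ m := (pow_dvd_pow_of_dvd (Nat.dvd_factorial hp.pos hl) 2).trans hm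
      have hc2 : Nat.Coprime (l ^ 2) (nm π ^ 2) :=
        Nat.Coprime.pow_right 2 (Nat.Coprime.coprime_dvd_right hlm hc).symm
      have e : nm (π * v) * nm (π * w) = nm π ^ 2 * (nm v * nm w) := by
        rw [nm_mul, nm_mul]; ring
      rw [e]
      constructor
      · intro h
        exact hc2.dvd_of_dvd_mul_left h
      · intro h
        exact h.mul_left _
    unfold Sqp
    constructor
    · intro h l hl hp hd
      exact h l hl hp ((key l hl hp).2 hd)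
    · intro h l hl hp hd
      exact h l hl hp ((key l hl hp).1 hd)

theorem RS_rel (q a r : ℕ) (sw : Bool) (P : ℕ) :
    Rel (q * P.factorial ^ 2) (RS q a r sw P) where
  per := by
    intro v w v' w' h1 h2 h3 h4
    have k1 := (rel_dvd (dvd_mul_right q (P.factorial ^ 2)) _ (RR_rel q a r sw)).per
      v w v' w' h1 h2 h3 h4
    have k2 := (sqp_rel P (q * P.factorial ^ 2) (dvd_mul_left _ _)).per v w v' w' h1 h2 h3 h4
    unfold RS
    exact and_congr k1 k2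
  dil := by
    intro π v w hc
    have k1 := (rel_dvd (dvd_mul_right q (P.factorial ^ 2)) _ (RR_rel q a r sw)).dil π v w hc
    have k2 := (sqp_rel P (q * P.factorial ^ 2) (dvd_mul_left _ _)).dil π v w hc
    unfold RS
    exact and_congr k1 k2

open scoped Classical in
theorem corew (h1 : S_MAINY) (h2 : S_CORR) (h3 : S_SCNT) (hb : S_BTA)
    (N : ℕ) (τ : ℂ) (f g : ℕ → ℂ) (hfg : FG N τ f g) (ha : Apd N (fun z => g (nm z)))
    (q a r P : ℕ) (hq : 1 ≤ q) (sw : Bool) (s₁ s₂ s₃ s₄ : ℝ) (hs1 : 0 ≤ s₁) (hs12 : s₁ < s₂)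
    (hs2 : s₂ ≤ 1) (hs3 : 0 ≤ s₃) (hs34 : s₃ < s₄) (hs4 : s₄ ≤ 1) (ε : ℝ) (hε : 0 < ε) :
    ∃ N₀ : ℕ, ∀ N' : ℕ, N₀ ≤ N' →
    ∑ X ∈ Icc 1 N', 1 / (X : ℝ) ^ 2 * ‖∑ p ∈ Win s₁ s₂ s₃ s₄ X,
      (if CC q a r sw p.1 p.2 ∧ Sqp P (p.1, p.2) then f p.1 * g p.2 else 0)‖ ≤
      ε * Real.log N' := by
  have nf : ∀ n, ‖f n‖ = 1 := fun n => norm_one_of N (f n) hfg.pos (hfg.pf n)
  have ng : ∀ n, ‖g n‖ = 1 := fun n => norm_one_of N (g n) hfg.pos (hfg.pg n)
  refine finyw h2 h3 (fun x y => if CC q a r sw x y ∧ Sqp P (x, y) then f x * g y else 0) ?_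
      s₁ s₂ s₃ s₄ hs1 hs12 hs3 hs34 ?_ ε hε
  · intro x y
    show ‖if CC q a r sw x y ∧ Sqp P (x, y) then _ else (0 : ℂ)‖ ≤ 1
    split_ifs
    · rw [norm_mul, nf, ng]
      simp
    · simp
  · intro σ₁ σ₃ hσ1 hσ12 hσ3 hσ34 ε hε
    have hq' : 1 ≤ q * P.factorial ^ 2 :=
      Nat.mul_pos hq (pow_pos (Nat.factorial_pos P) 2)
    obtain ⟨N₀, hN₀⟩ := h1 N τ (fun z => f (nm z)) (fun z => g (nm z)) (fg_Pr N τ f g hfg)
      (q * P.factorial ^ 2) hq' (fun β => hb N _ ha (q * P.factorial ^ 2) β hq')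
      (RS q a r sw P) (RS_rel q a r sw P) σ₁ s₂ σ₃ s₄ hσ1 hσ12 hs2 hσ3 hσ34 hs4 ε hε
    refine ⟨N₀, fun N' hN => ?_⟩
    have hthis := hN₀ N' hN
    have hAG : ∀ X : ℕ, AG (fun e => (fun x y => if CC q a r sw x y ∧ Sqp P (x, y) then
        f x * g y else 0) (nm e.1) (nm e.2)) σ₁ s₂ σ₃ s₄ (X : ℝ) =
        AG (g2 (fun z => f (nm z)) (fun z => g (nm z)) (RS q a r sw P)) σ₁ s₂ σ₃ s₄ (X : ℝ) := by
      intro X
      unfold AG
      refine sum_congr rfl fun e he => ?_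
      rw [mem_filter] at he
      have hdt : dt e.1 e.2 = 1 := by
        have h3 := he.1
        unfold dedge at h3
        exact (mem_filter.1 h3).2
      unfold g2
      beta_reduce
      have hiff := CC_iff q a r sw e.1 e.2 hdt he.2.1
      by_cases hc : CC q a r sw (nm e.1) (nm e.2) ∧ Sqp P (nm e.1, nm e.2)
      · have hR : RS q a r sw P e.1 e.2 := ⟨hiff.1 hc.1, hc.2⟩
        rw [if_pos hc, if_pos hR]
      · have hR : ¬ RS q a r sw P e.1 e.2 := fun h => hc ⟨hiff.2 h.1, h.2⟩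
        rw [if_neg hc, if_neg hR]
    refine le_trans (le_of_eq (sum_congr rfl fun X _ => ?_)) hthis
    rw [hAG X]

theorem sqp_swap (P x y : ℕ) : Sqp P (x, y) ↔ Sqp P (y, x) := by
  unfold Sqp
  simp only [mul_comm]

/-- TW -/
theorem tw (h1 : S_MAINY) (h2 : S_CORR) (h3 : S_SCNT) (hb : S_BTA) :
    Pool.Agent.W251.EX.S_TW := by
  classical
  intro N τ f g hfg hap q a r P hq s₁ s₂ s₃ s₄ hs1 hs12 hs2 hs3 hs34 hs4 ε hε
  rcases hap with ha | ha
  · obtain ⟨N₀, hN₀⟩ := corew h1 h2 h3 hb N τ g f (fg_swap hfg) ha q a r P hq true s₃ s₄ s₁ s₂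
      hs3 hs34 hs4 hs1 hs12 hs2 ε hε
    refine ⟨N₀, fun N' hN => le_trans (le_of_eq (sum_congr rfl fun X _ => ?_)) (hN₀ N' hN)⟩
    congr 2
    rw [SW_eq, sum_filter, sum_filter]
    refine sum_nbij' Prod.swap Prod.swap ?_ ?_ (fun p _ => Prod.swap_swap p)
      (fun p _ => Prod.swap_swap p) fun p hp => ?_
    · intro p hp
      rw [mem_Win] at hp ⊢
      exact ⟨SP_swap hp.1, hp.2.2.2.1, hp.2.2.2.2, hp.2.1, hp.2.2.1⟩
    · intro p hp
      rw [mem_Win] at hp ⊢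
      exact ⟨SP_swap hp.1, hp.2.2.2.1, hp.2.2.2.2, hp.2.1, hp.2.2.1⟩
    have hiff : CC q a r true p.swap.1 p.swap.2 ↔ Cd q a r p := by
      unfold CC Cd
      simp only [if_true, Prod.fst_swap, Prod.snd_swap]
      constructor
      · rintro ⟨n, h3, h4, h5⟩
        exact ⟨n, by rw [mul_comm]; exact h3, h4, h5⟩
      · rintro ⟨n, h3, h4, h5⟩
        exact ⟨n, by rw [mul_comm]; exact h3, h4, h5⟩
    have hs : Sqp P (p.swap.1, p.swap.2) ↔ Sqp P p := sqp_swap P _ _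
    by_cases hc : CC q a r true p.swap.1 p.swap.2
    · by_cases hd : Sqp P (p.swap.1, p.swap.2)
      · have hcd := And.intro hc hd
        rw [if_pos (hiff.1 hc), if_pos (hs.1 hd), if_pos hcd]
        simp only [Prod.fst_swap, Prod.snd_swap]
        rw [mul_comm]
      · have hcd : ¬ (CC q a r true p.swap.1 p.swap.2 ∧ Sqp P (p.swap.1, p.swap.2)) :=
          fun h => hd h.2
        rw [if_pos (hiff.1 hc), if_neg (fun h => hd (hs.2 h)), if_neg hcd]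
    · have hcd : ¬ (CC q a r true p.swap.1 p.swap.2 ∧ Sqp P (p.swap.1, p.swap.2)) :=
        fun h => hc h.1
      rw [if_neg (fun h => hc (hiff.2 h)), if_neg hcd]
  · obtain ⟨N₀, hN₀⟩ := corew h1 h2 h3 hb N τ f g hfg ha q a r P hq false s₁ s₂ s₃ s₄
      hs1 hs12 hs2 hs3 hs34 hs4 ε hε
    refine ⟨N₀, fun N' hN => le_trans (le_of_eq (sum_congr rfl fun X _ => ?_)) (hN₀ N' hN)⟩
    congr 2
    rw [SW_eq, sum_filter, sum_filter]
    refine sum_congr rfl fun p hp => ?_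
    have hiff : CC q a r false p.1 p.2 ↔ Cd q a r p := by
      unfold CC Cd
      simp only [Bool.false_eq_true, if_false]
    by_cases hc : CC q a r false p.1 p.2
    · by_cases hd : Sqp P (p.1, p.2)
      · have hcd := And.intro hc hd
        rw [if_pos (hiff.1 hc), if_pos (show Sqp P p from hd), if_pos hcd]
      · have hcd : ¬ (CC q a r false p.1 p.2 ∧ Sqp P (p.1, p.2)) := fun h => hd h.2
        rw [if_pos (hiff.1 hc), if_neg (show ¬ Sqp P p from hd), if_neg hcd]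
    · have hcd : ¬ (CC q a r false p.1 p.2 ∧ Sqp P (p.1, p.2)) := fun h => hc h.1
      rw [if_neg (fun h => hc (hiff.2 h)), if_neg hcd]

end Pool.Agent.W924.EX
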